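import Pool.Agent.W662.SK.StmtsB

set_option autoImplicit false
set_option linter.unusedSectionVars false

open scoped InnerProductSpace ENNReal
open Filter Topology

namespace Pool.Agent.W135.SK.B10

open Pool.Agent.W662.SK

section gen
variable {Γ : Type} [Group Γ] {K : Type} [NormedAddCommGroup K] [InnerProductSpace ℂ K]

/-- a continuous linear map vanishing on the translations vanishes on the group algebra -/
lemma Cr_ind {X : Type} [NormedAddCommGroup X] [NormedSpace ℂ X]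
    (φ : (L2 Γ K →L[ℂ] L2 Γ K) →L[ℂ] X) (h : ∀ g : Γ, φ (cl (Lam K g)) = 0) :
    ∀ c ∈ Cr Γ K, φ c = 0 := by
  intro c hc
  have h1 : Submodule.span ℂ (Set.range fun g : Γ => cl (Lam K g)) ≤ LinearMap.ker φ.toLinearMap := by
    rw [Submodule.span_le]
    rintro _ ⟨g, rfl⟩
    exact h g
  have h2 : Cr Γ K ≤ LinearMap.ker φ.toLinearMap := by
    refine Submodule.topologicalClosure_minimal _ h1 ?_
    exact isClosed_singleton.preimage φ.continuous
  exact h2 hc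

/-- the functional -/
noncomputable def ev (e : L2 Γ K) : (L2 Γ K →L[ℂ] L2 Γ K) →L[ℂ] ℂ :=
  (innerSL ℂ e).comp (ContinuousLinearMap.apply ℂ (L2 Γ K) e)

lemma ev_apply (e : L2 Γ K) (c : L2 Γ K →L[ℂ] L2 Γ K) : ev e c = ⟪e, c e⟫_ℂ := rfl

lemma trace_gen [DecidableEq Γ] (x0 : K) (g h : Γ) :
    ev (lp.single 2 1 x0 : L2 Γ K) (cl (Lam K g) * cl (Lam K h)) =
      ev (lp.single 2 1 x0 : L2 Γ K) (cl (Lam K h) * cl (Lam K g)) := by
  have h1 : ∀ g h : Γ, ev (lp.single 2 1 x0 : L2 Γ K) (cl (Lam K g) * cl (Lam K h)) =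
      if g * h = 1 then ⟪x0, x0⟫_ℂ else 0 := by
    intro g h
    rw [ev_apply, ← cl_mul, ← Lam_mul, cl_apply, Lam_single, mul_one, inner_single_left']
    split_ifs with hh
    · rw [hh, lp.single_apply_self]
    · rw [lp.single_apply_ne _ _ _ (Ne.symm hh), inner_zero_right]
  rw [h1, h1]
  have h2 : g * h = 1 ↔ h * g = 1 := mul_eq_one_comm
  simp only [h2]

/-- left multiplication -/
noncomputable def lm (a : L2 Γ K →L[ℂ] L2 Γ K) :
    (L2 Γ K →L[ℂ] L2 Γ K) →L[ℂ] (L2 Γ K →L[ℂ] L2 Γ K) :=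
  ContinuousLinearMap.compL ℂ (L2 Γ K) (L2 Γ K) (L2 Γ K) a

/-- right multiplication -/
noncomputable def rm (b : L2 Γ K →L[ℂ] L2 Γ K) :
    (L2 Γ K →L[ℂ] L2 Γ K) →L[ℂ] (L2 Γ K →L[ℂ] L2 Γ K) :=
  (ContinuousLinearMap.compL ℂ (L2 Γ K) (L2 Γ K) (L2 Γ K)).flip b

lemma lm_apply (a T : L2 Γ K →L[ℂ] L2 Γ K) : lm a T = a * T := rfl
lemma rm_apply (b T : L2 Γ K →L[ℂ] L2 Γ K) : rm b T = T * b := rfl

lemma trace [DecidableEq Γ] (x0 : K) :
    ∀ a ∈ Cr Γ K, ∀ b ∈ Cr Γ K, ev (lp.single 2 1 x0 : L2 Γ K) (a * b) =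
      ev (lp.single 2 1 x0 : L2 Γ K) (b * a) := by
  have h1 : ∀ g : Γ, ∀ b ∈ Cr Γ K, ev (lp.single 2 1 x0 : L2 Γ K) (cl (Lam K g) * b) =
      ev (lp.single 2 1 x0 : L2 Γ K) (b * cl (Lam K g)) := by
    intro g b hb
    have h2 := Cr_ind ((ev (lp.single 2 1 x0 : L2 Γ K)).comp (lm (cl (Lam K g))) -
      (ev (lp.single 2 1 x0 : L2 Γ K)).comp (rm (cl (Lam K g)))) (fun h => by
        rw [_root_.sub_apply, ContinuousLinearMap.comp_apply,
          ContinuousLinearMap.comp_apply, lm_apply, rm_apply, sub_eq_zero]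
        exact trace_gen x0 g h) b hb
    rw [_root_.sub_apply, ContinuousLinearMap.comp_apply,
      ContinuousLinearMap.comp_apply, lm_apply, rm_apply, sub_eq_zero] at h2
    exact h2
  intro a ha b hb
  have h2 := Cr_ind ((ev (lp.single 2 1 x0 : L2 Γ K)).comp (rm b) -
    (ev (lp.single 2 1 x0 : L2 Γ K)).comp (lm b)) (fun h => by
      rw [_root_.sub_apply, ContinuousLinearMap.comp_apply,
        ContinuousLinearMap.comp_apply, lm_apply, rm_apply, sub_eq_zero]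
      exact h1 h b hb) a ha
  rw [_root_.sub_apply, ContinuousLinearMap.comp_apply,
    ContinuousLinearMap.comp_apply, lm_apply, rm_apply, sub_eq_zero] at h2
  exact h2

/-- a commutation property -/
lemma comm_of {T : L2 Γ K →L[ℂ] L2 Γ K} (h : ∀ g : Γ, cl (Lam K g) * T = T * cl (Lam K g)) :
    ∀ c ∈ Cr Γ K, c * T = T * c := by
  intro c hc
  have h2 := Cr_ind (X := L2 Γ K →L[ℂ] L2 Γ K) (rm T - lm T)
    (fun g => by
      rw [_root_.sub_apply, lm_apply, rm_apply, sub_eq_zero]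
      exact h g) c hc
  rw [_root_.sub_apply, lm_apply, rm_apply, sub_eq_zero] at h2
  exact h2

/-- an element of the group algebra is determined by its value at the vector `e` -/
lemma faithful [DecidableEq Γ] (x0 : K) (hx0 : ‖x0‖ = 1) (c : L2 Γ K →L[ℂ] L2 Γ K)
    (hc : c ∈ Cr Γ K) (h : c (lp.single 2 1 x0 : L2 Γ K) = 0) : c = 0 := by
  have hR : ∀ k : Γ, c * cl (Rho K k) = cl (Rho K k) * c := fun k =>
    comm_of (fun g => by rw [← cl_mul, ← cl_mul, Lam_Rho]) c hc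
  have hT : ∀ T : K →L[ℂ] K, c * lft Γ T = lft Γ T * c := fun T =>
    comm_of (fun g => (lft_Lam T g).symm) c hc
  have h1 : ∀ (k : Γ) (v : K), c (lp.single 2 k v : L2 Γ K) = 0 := by
    intro k v
    have e1 : (lp.single 2 k v : L2 Γ K) = cl (Rho K k⁻¹)
        (lft Γ (InnerProductSpace.rankOne ℂ v x0) (lp.single 2 1 x0 : L2 Γ K)) := by
      rw [lft_single, cl_apply, Rho_single, inv_inv, one_mul]
      congr 1
      rw [InnerProductSpace.rankOne_apply, inner_self_eq_norm_sq_to_K, hx0]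
      simp
    have e2 : c (cl (Rho K k⁻¹)
        (lft Γ (InnerProductSpace.rankOne ℂ v x0) (lp.single 2 1 x0 : L2 Γ K))) =
        cl (Rho K k⁻¹) (c (lft Γ (InnerProductSpace.rankOne ℂ v x0)
          (lp.single 2 1 x0 : L2 Γ K))) :=
      congrArg (fun S : L2 Γ K →L[ℂ] L2 Γ K => S
        (lft Γ (InnerProductSpace.rankOne ℂ v x0) (lp.single 2 1 x0 : L2 Γ K))) (hR k⁻¹)
    have e3 : c (lft Γ (InnerProductSpace.rankOne ℂ v x0) (lp.single 2 1 x0 : L2 Γ K)) =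
        lft Γ (InnerProductSpace.rankOne ℂ v x0) (c (lp.single 2 1 x0 : L2 Γ K)) :=
      congrArg (fun S : L2 Γ K →L[ℂ] L2 Γ K => S (lp.single 2 1 x0 : L2 Γ K))
        (hT (InnerProductSpace.rankOne ℂ v x0))
    rw [e1, e2, e3, h, map_zero, map_zero]
  ext1 f
  have h2 := (hasSum_single' f).mapL c
  simp only [h1] at h2
  exact h2.unique hasSum_zero

end gen

theorem b10 (h0 : S_B0) (h1 : S_B1) (h2 : S_B2) (h4 : S_B4) : S_B10 := by
  classical
  intro Γ K _ _ _ _ _ π hs A hA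
  obtain ⟨sgm, sgs, sga, sgc, sg1, sgn⟩ := h0 Γ K π
  obtain ⟨Jm, Js, Cm, Cs, C1⟩ := h1 Γ K
  have B2 := h2 Γ K π
  have B4 := h4 Γ K π hs
  obtain ⟨x1, hx1⟩ := exists_ne (0 : K)
  obtain ⟨x0, hx0⟩ : ∃ x0 : K, ‖x0‖ = 1 := by
    refine ⟨((‖x1‖ : ℂ)⁻¹) • x1, ?_⟩
    rw [norm_smul, norm_inv, Complex.norm_real, norm_norm,
      inv_mul_cancel₀ (norm_ne_zero_iff.mpr hx1)]
  have sgneg : ∀ a, sg π (-a) = -sg π a := by
    intro a
    have := sgc (-1) a
    rw [neg_one_smul, neg_one_smul] at this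
    exact this
  have sgsub : ∀ a b, sg π (a - b) = sg π a - sg π b := by
    intro a b
    rw [sub_eq_add_neg, sga, sgneg, ← sub_eq_add_neg]
  have sg0 : sg π (0 : L2 Γ K →L[ℂ] L2 Γ K) = 0 := by
    have := sgsub 0 0
    rwa [sub_self, sub_self] at this
  have key : ∀ x : A, ∃ c, c ∈ Cr Γ K ∧ (x : L2 Γ K →L[ℂ] L2 Γ K) - sg π c ∈ Jd Γ K := by
    intro x
    have hx : (x : L2 Γ K →L[ℂ] L2 Γ K) ∈ Aset π := by
      have : (x : L2 Γ K →L[ℂ] L2 Γ K) ∈ (A : Set (L2 Γ K →L[ℂ] L2 Γ K)) := x.2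
      rwa [hA] at this
    obtain ⟨j, hj, c, hc, e⟩ := hx
    refine ⟨c, hc, ?_⟩
    rw [e, add_sub_cancel_right]
    exact hj
  have uniq : ∀ (T c c' : L2 Γ K →L[ℂ] L2 Γ K), c ∈ Cr Γ K → c' ∈ Cr Γ K →
      T - sg π c ∈ Jd Γ K → T - sg π c' ∈ Jd Γ K → c = c' := by
    intro T c c' hc hc' h h'
    have e1 := B4 ((T - sg π c) - (T - sg π c')) (Submodule.sub_mem _ h h') (c - c')
      (Submodule.sub_mem _ hc hc')
    have e2 : (T - sg π c) - (T - sg π c') + sg π (c - c') = 0 := by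
      rw [sgsub]; abel
    rw [e2, norm_zero] at e1
    have e3 : c - c' = 0 := norm_le_zero_iff.mp e1
    exact sub_eq_zero.mp e3
  choose c hc hj using key
  have cadd : ∀ x y : A, c (x + y) = c x + c y := by
    intro x y
    refine uniq ((x + y : A) : L2 Γ K →L[ℂ] L2 Γ K) _ _ (hc _)
      (Submodule.add_mem _ (hc x) (hc y)) (hj _) ?_
    have e : ((x + y : A) : L2 Γ K →L[ℂ] L2 Γ K) - sg π (c x + c y) =
        ((x : L2 Γ K →L[ℂ] L2 Γ K) - sg π (c x)) + ((y : L2 Γ K →L[ℂ] L2 Γ K) - sg π (c y)) := by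
      rw [sga]
      show ((x : L2 Γ K →L[ℂ] L2 Γ K) + (y : L2 Γ K →L[ℂ] L2 Γ K)) - _ = _
      abel
    rw [e]
    exact Submodule.add_mem _ (hj x) (hj y)
  have csmul : ∀ (a : ℂ) (x : A), c (a • x) = a • c x := by
    intro a x
    refine uniq ((a • x : A) : L2 Γ K →L[ℂ] L2 Γ K) _ _ (hc _)
      (Submodule.smul_mem _ a (hc x)) (hj _) ?_
    have e : ((a • x : A) : L2 Γ K →L[ℂ] L2 Γ K) - sg π (a • c x) =
        a • ((x : L2 Γ K →L[ℂ] L2 Γ K) - sg π (c x)) := by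
      rw [sgc, smul_sub]
      rfl
    rw [e]
    exact Submodule.smul_mem _ a (hj x)
  have cmul : ∀ x y : A, c (x * y) = c x * c y := by
    intro x y
    refine uniq ((x * y : A) : L2 Γ K →L[ℂ] L2 Γ K) _ _ (hc _)
      (Cm _ (hc x) _ (hc y)) (hj _) ?_
    have e : ((x * y : A) : L2 Γ K →L[ℂ] L2 Γ K) - sg π (c x * c y) =
        (((x : L2 Γ K →L[ℂ] L2 Γ K) - sg π (c x)) * ((y : L2 Γ K →L[ℂ] L2 Γ K) - sg π (c y)) +
        ((x : L2 Γ K →L[ℂ] L2 Γ K) - sg π (c x)) * sg π (c y)) +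
        sg π (c x) * ((y : L2 Γ K →L[ℂ] L2 Γ K) - sg π (c y)) := by
      rw [sgm]
      show ((x : L2 Γ K →L[ℂ] L2 Γ K) * (y : L2 Γ K →L[ℂ] L2 Γ K)) - _ = _
      noncomm_ring
    rw [e]
    exact Submodule.add_mem _ (Submodule.add_mem _ (Jm _ (hj x) _ (hj y))
      (B2 _ (hc y) _ (hj x)).2) (B2 _ (hc x) _ (hj y)).1
  have cstar : ∀ x : A, c (star x) = star (c x) := by
    intro x
    refine uniq ((star x : A) : L2 Γ K →L[ℂ] L2 Γ K) _ _ (hc _) (Cs _ (hc x)) (hj _) ?_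
    have e : ((star x : A) : L2 Γ K →L[ℂ] L2 Γ K) - sg π (star (c x)) =
        star ((x : L2 Γ K →L[ℂ] L2 Γ K) - sg π (c x)) := by
      rw [sgs, star_sub]
      rfl
    rw [e]
    exact Js _ (hj x)
  have he : ‖(lp.single 2 1 x0 : L2 Γ K)‖ = 1 := by
    rw [lp.norm_single (by norm_num), hx0]
  refine ⟨{ toFun := fun x => ev (lp.single 2 1 x0 : L2 Γ K) (c x)
            map_add' := fun x y => by rw [cadd, map_add]
            map_smul' := fun a x => by rw [csmul, map_smul]; rfl }, ?_, ?_, ?_⟩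
  · intro x
    show ‖ev (lp.single 2 1 x0 : L2 Γ K) (c x)‖ ≤ ‖(x : L2 Γ K →L[ℂ] L2 Γ K)‖
    have e1 : ‖c x‖ ≤ ‖(x : L2 Γ K →L[ℂ] L2 Γ K)‖ := by
      have := B4 _ (hj x) (c x) (hc x)
      rwa [sub_add_cancel] at this
    refine le_trans ?_ e1
    rw [ev_apply]
    calc ‖⟪(lp.single 2 1 x0 : L2 Γ K), c x (lp.single 2 1 x0 : L2 Γ K)⟫_ℂ‖
        ≤ ‖(lp.single 2 1 x0 : L2 Γ K)‖ * ‖c x (lp.single 2 1 x0 : L2 Γ K)‖ :=
          norm_inner_le_norm _ _
      _ ≤ ‖(lp.single 2 1 x0 : L2 Γ K)‖ * (‖c x‖ * ‖(lp.single 2 1 x0 : L2 Γ K)‖) := by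
          gcongr
          exact (c x).le_opNorm _
      _ = ‖c x‖ := by rw [he]; ring
  · intro x y
    show ev (lp.single 2 1 x0 : L2 Γ K) (c (x * y)) = ev (lp.single 2 1 x0 : L2 Γ K) (c (y * x))
    rw [cmul, cmul]
    exact trace x0 _ (hc x) _ (hc y)
  · intro x hx
    have e1 : ev (lp.single 2 1 x0 : L2 Γ K) (c (star x * x)) = 0 := hx
    rw [cmul, cstar, ev_apply] at e1
    have e2 : ⟪(lp.single 2 1 x0 : L2 Γ K), (star (c x) * c x) (lp.single 2 1 x0 : L2 Γ K)⟫_ℂ =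
        ⟪c x (lp.single 2 1 x0 : L2 Γ K), c x (lp.single 2 1 x0 : L2 Γ K)⟫_ℂ :=
      ContinuousLinearMap.adjoint_inner_right (c x) _ _
    rw [e2, inner_self_eq_zero] at e1
    have e3 : c x = 0 := faithful x0 hx0 (c x) (hc x) e1
    have e4 := hj x
    rw [e3, sg0, sub_zero] at e4
    exact e4

end Pool.Agent.W135.SK.B10
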